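import Pool.Agent.L7h4.FR.Five

/-!
# Project F5, part HESS: Krylov rows and columns of unreduced Hessenberg matrices
-/

set_option autoImplicit false

namespace Pool.Agent.L7h77.F5

open Matrix Pool.Agent.L7h4.F5

theorem col_zero {n : ℕ} (hn : 0 < n) (H : Mat n) (hH : Hes H) : ∀ (k : ℕ) (i : Fin n), k < (i : ℕ) →
    (H ^ k) i ⟨0, hn⟩ = 0 := by
  intro k
  induction k with
  | zero =>
    intro i hi
    rw [pow_zero, Matrix.one_apply_ne]
    intro h
    rw [h] at hi
    simp at hi
  | succ k ih =>
    intro i hi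
    rw [pow_succ', Matrix.mul_apply]
    apply Finset.sum_eq_zero
    intro j _
    by_cases hj : k < (j : ℕ)
    · rw [ih j hj, mul_zero]
    · rw [hH.1 i j (by omega), zero_mul]

theorem col_ne {n : ℕ} (hn : 0 < n) (H : Mat n) (hH : Hes H) : ∀ (k : ℕ) (i : Fin n), k = (i : ℕ) →
    (H ^ k) i ⟨0, hn⟩ ≠ 0 := by
  intro k
  induction k with
  | zero =>
    intro i hi
    have : i = ⟨0, hn⟩ := Fin.ext hi.symm
    rw [this, pow_zero, Matrix.one_apply_eq]
    exact one_ne_zero
  | succ k ih =>
    intro i hi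
    have hk : k < n := by have := i.2; omega
    rw [pow_succ', Matrix.mul_apply, Finset.sum_eq_single (⟨k, hk⟩ : Fin n)]
    · exact mul_ne_zero (hH.2 i ⟨k, hk⟩ hi) (ih ⟨k, hk⟩ rfl)
    · intro j _ hj
      have hj' : (j : ℕ) ≠ k := fun h => hj (Fin.ext h)
      by_cases hj2 : k < (j : ℕ)
      · rw [col_zero hn H hH k j hj2, mul_zero]
      · rw [hH.1 i j (by omega), zero_mul]
    · intro h; exact absurd (Finset.mem_univ _) h

theorem row_zero {n : ℕ} (hn : 0 < n) (H : Mat n) (hH : Hes H) : ∀ (k : ℕ) (j : Fin n),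
    (j : ℕ) + k + 1 < n → (H ^ k) (last n hn) j = 0 := by
  intro k
  induction k with
  | zero =>
    intro j hj
    rw [pow_zero, Matrix.one_apply_ne]
    intro h
    rw [← h] at hj
    simp only [last] at hj
    omega
  | succ k ih =>
    intro j hj
    rw [pow_succ, Matrix.mul_apply]
    apply Finset.sum_eq_zero
    intro l _
    by_cases hl : (l : ℕ) + k + 1 < n
    · rw [ih l hl, zero_mul]
    · rw [hH.1 l j (by omega), mul_zero]

theorem row_ne {n : ℕ} (hn : 0 < n) (H : Mat n) (hH : Hes H) : ∀ (k : ℕ) (j : Fin n),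
    (j : ℕ) + k + 1 = n → (H ^ k) (last n hn) j ≠ 0 := by
  intro k
  induction k with
  | zero =>
    intro j hj
    have : j = last n hn := Fin.ext (by simp only [last]; omega)
    rw [this, pow_zero, Matrix.one_apply_eq]
    exact one_ne_zero
  | succ k ih =>
    intro j hj
    have hk : (j : ℕ) + 1 < n := by omega
    rw [pow_succ, Matrix.mul_apply, Finset.sum_eq_single (⟨(j : ℕ) + 1, hk⟩ : Fin n)]
    · exact mul_ne_zero (ih ⟨(j : ℕ) + 1, hk⟩ (by show (j : ℕ) + 1 + k + 1 = n; omega))
        (hH.2 ⟨(j : ℕ) + 1, hk⟩ j rfl)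
    · intro l _ hl
      have hl' : (l : ℕ) ≠ (j : ℕ) + 1 := fun h => hl (Fin.ext h)
      by_cases hl2 : (l : ℕ) + k + 1 < n
      · rw [row_zero hn H hH k l hl2, zero_mul]
      · rw [hH.1 l j (by omega), mul_zero]
    · intro h; exact absurd (Finset.mem_univ _) h

theorem s_HESS : S_HESS := by
  intro n hn H hH
  refine ⟨?_, ?_, ?_, ?_, ?_⟩
  · set M : Mat n := Matrix.of fun k j : Fin n => (H ^ (k : ℕ)) (last n hn) j with hM
    have h1 : (M.submatrix id Fin.revPerm).det ≠ 0 := by
      rw [Matrix.det_of_lowerTriangular]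
      · rw [Finset.prod_ne_zero_iff]
        intro k _
        show (H ^ (k : ℕ)) (last n hn) (Fin.rev k) ≠ 0
        apply row_ne hn H hH
        rw [Fin.val_rev]
        have := k.2
        omega
      · intro k j hkj
        show (H ^ (k : ℕ)) (last n hn) (Fin.rev j) = 0
        apply row_zero hn H hH
        rw [Fin.val_rev]
        have h1 := k.2
        have h2 := j.2
        have h3 : (k : ℕ) < j := hkj
        omega
    rw [Matrix.det_permute'] at h1
    exact right_ne_zero_of_mul h1
  · rw [Matrix.det_of_upperTriangular]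
    · rw [Finset.prod_ne_zero_iff]
      intro k _
      exact col_ne hn H hH k k rfl
    · intro i k hki
      exact col_zero hn H hH k i hki
  · intro k hk
    apply row_zero hn H hH
    show 0 + k + 1 < n
    omega
  · apply row_ne hn H hH
    show 0 + (n - 1) + 1 = n
    omega
  · exact fun k i hki => col_zero hn H hH k i hki

end Pool.Agent.L7h77.F5
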