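import Pool.Agent.L7h4.FR.Five

/-!
# Project F5, part ORBH: a transvection and a Hessenberg matrix give the certificate
-/

set_option autoImplicit false

namespace Pool.Agent.L7h77.F5

open Matrix Pool.Agent.L7h4.F5

theorem s_ORBH (h : S_HESS) : S_ORBH := by
  intro n hn G w R R' hw hwl hT hR hR' h1 h2 hH
  set E : Mat n := Matrix.of fun k j : Fin n => (R ^ (k : ℕ)) (last n hn) j with hE
  have hdet : E.det ≠ 0 := (h n hn R hH).1
  have hu : IsUnit E.det := isUnit_iff_ne_zero.2 hdet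
  have hEE : E⁻¹ * E = 1 := Matrix.nonsing_inv_mul E hu
  have hEE' : E * E⁻¹ = 1 := Matrix.mul_nonsing_inv E hu
  have hpow : ∀ k : ℕ, R ^ k * R' ^ k = 1 := by
    intro k
    induction k with
    | zero => simp
    | succ k ih => rw [pow_succ, pow_succ', mul_assoc, ← mul_assoc R R', h1, one_mul, ih]
  have hpow' : ∀ k : ℕ, R' ^ k * R ^ k = 1 := by
    intro k
    induction k with
    | zero => simp
    | succ k ih => rw [pow_succ, pow_succ', mul_assoc, ← mul_assoc R' R, h2, one_mul, ih]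
  refine ⟨E⁻¹, E, hEE, hEE', fun k => ⟨E *ᵥ ((R' ^ (k : ℕ)) *ᵥ w), ?_, ?_, ?_⟩⟩
  · intro h0
    apply hw
    have h3 : E⁻¹ *ᵥ (E *ᵥ ((R' ^ (k : ℕ)) *ᵥ w)) = 0 := by rw [h0, Matrix.mulVec_zero]
    rw [Matrix.mulVec_mulVec, hEE, Matrix.one_mulVec] at h3
    have h4 : (R ^ (k : ℕ)) *ᵥ ((R' ^ (k : ℕ)) *ᵥ w) = 0 := by rw [h3, Matrix.mulVec_zero]
    rwa [Matrix.mulVec_mulVec, hpow, Matrix.one_mulVec] at h4
  · have h3 : (E *ᵥ ((R' ^ (k : ℕ)) *ᵥ w)) k =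
        ((R ^ (k : ℕ)) *ᵥ ((R' ^ (k : ℕ)) *ᵥ w)) (last n hn) := rfl
    rw [h3, Matrix.mulVec_mulVec, hpow, Matrix.one_mulVec, hwl]
  · have h3 : (Pi.single k 1 : Fin n → ℂ) ᵥ* E =
        (Pi.single (last n hn) 1 : Fin n → ℂ) ᵥ* (R ^ (k : ℕ)) := by
      rw [Matrix.single_one_vecMul, Matrix.single_one_vecMul]
      rfl
    have h4 : E⁻¹ * (1 + vecMulVec (E *ᵥ ((R' ^ (k : ℕ)) *ᵥ w)) (Pi.single k 1)) * E =
        R' ^ (k : ℕ) * (1 + vecMulVec w (Pi.single (last n hn) 1)) * R ^ (k : ℕ) := by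
      rw [Matrix.mul_add, Matrix.add_mul, Matrix.mul_one, hEE, Matrix.mul_vecMulVec,
        Matrix.vecMulVec_mul, h3, Matrix.mulVec_mulVec, hEE, Matrix.one_mulVec,
        Matrix.mul_add, Matrix.add_mul, Matrix.mul_one, hpow', Matrix.mul_vecMulVec,
        Matrix.vecMulVec_mul]
    rw [h4]
    exact G.mul_mem (G.mul_mem (G.pow_mem hR' _) hT) (G.pow_mem hR _)

end Pool.Agent.L7h77.F5
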