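import Pool.Agent.L7h4.FR.Five

/-!
# Project F5, part TRI: triangular forms with prescribed first and last diagonal entries
-/

set_option autoImplicit false

namespace Pool.Agent.L7h77.F5

open Matrix Pool.Agent.L7h4.F5

section lin

/-- eigenvectors exist -/
theorem ex_eig (V : Type) [AddCommGroup V] [Module ℂ V] [FiniteDimensional ℂ V] [Nontrivial V]
    (f : V →ₗ[ℂ] V) : ∃ (a : ℂ) (x : V), x ≠ 0 ∧ f x = a • x := by
  obtain ⟨μ, hμ⟩ := Module.End.exists_eigenvalue f
  obtain ⟨x, hx⟩ := hμ.exists_hasEigenvector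
  exact ⟨μ, x, hx.2, hx.apply_eq_smul⟩

/-- an eigenvalue is an eigenvalue of the dual map -/
theorem dual_eig (V : Type) [AddCommGroup V] [Module ℂ V] [FiniteDimensional ℂ V]
    (f : V →ₗ[ℂ] V) (a : ℂ) (x : V) (hx : x ≠ 0) (h : f x = a • x) :
    ∃ φ : V →ₗ[ℂ] ℂ, φ ≠ 0 ∧ ∀ y, φ (f y) = a * φ y := by
  set u : V →ₗ[ℂ] V := f - a • LinearMap.id with hu
  have hker : LinearMap.ker u ≠ ⊥ := by
    intro h0
    apply hx
    have : x ∈ LinearMap.ker u := by
      rw [LinearMap.mem_ker, hu]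
      simp only [LinearMap.sub_apply, LinearMap.smul_apply, LinearMap.id_apply]
      rw [h, sub_self]
    rw [h0] at this
    exact (Submodule.mem_bot ℂ).mp this
  have hrange : LinearMap.range u ≠ ⊤ := by
    intro h
    exact hker (LinearMap.ker_eq_bot_iff_range_eq_top.mpr h)
  obtain ⟨φ, hφ0, hφ⟩ := Submodule.exists_le_ker_of_lt_top _ (lt_top_iff_ne_top.mpr hrange)
  refine ⟨φ, hφ0, fun y => ?_⟩
  have h1 : φ (u y) = 0 := hφ (LinearMap.mem_range_self u y)
  have h2 : u y = f y - a • y := by rw [hu]; simp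
  rw [h2, map_sub, map_smul, smul_eq_mul, sub_eq_zero] at h1
  exact h1

/-- an invariant hyperplane above an invariant subspace -/
theorem hyp (V : Type) [AddCommGroup V] [Module ℂ V] [FiniteDimensional ℂ V]
    (f : V →ₗ[ℂ] V) (S : Submodule ℂ V) (hS : S ≤ S.comap f) (hT : S ≠ ⊤) :
    ∃ (φ : V →ₗ[ℂ] ℂ) (μ : ℂ), φ ≠ 0 ∧ (∀ x ∈ S, φ x = 0) ∧ ∀ y, φ (f y) = μ * φ y := by
  have : Nontrivial (V ⧸ S) := Submodule.Quotient.nontrivial_iff.2 hT
  obtain ⟨μ, x, hx, h⟩ := ex_eig (V ⧸ S) (S.mapQ S f hS)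
  obtain ⟨φ, hφ, h2⟩ := dual_eig (V ⧸ S) (S.mapQ S f hS) μ x hx h
  refine ⟨φ ∘ₗ S.mkQ, μ, ?_, ?_, ?_⟩
  · intro h0
    apply hφ
    ext y
    have := LinearMap.congr_fun h0 y
    simpa using this
  · intro y hy
    have : S.mkQ y = 0 := by simpa using hy
    rw [LinearMap.comp_apply, this, map_zero]
  · intro y
    have := h2 (S.mkQ y)
    rw [Submodule.mkQ_apply, Submodule.mapQ_apply] at this
    exact this

/-- adding a last vector to a triangular basis of an invariant hyperplane -/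
theorem snoc (V : Type) [AddCommGroup V] [Module ℂ V] [FiniteDimensional ℂ V]
    (f : V →ₗ[ℂ] V) (φ : V →ₗ[ℂ] ℂ) (μ : ℂ) (hφ0 : φ ≠ 0) (hφ : ∀ y, φ (f y) = μ * φ y) (n : ℕ)
    (htH : ∀ x ∈ LinearMap.ker φ, f x ∈ LinearMap.ker φ)
    (b : Module.Basis (Fin n) ℂ (LinearMap.ker φ))
    (hb : ∀ i j, j < i → b.repr (f.restrict htH (b j)) i = 0) :
    ∃ B : Module.Basis (Fin (n + 1)) ℂ V, (∀ i j, j < i → B.repr (f (B j)) i = 0) ∧
      (∀ i : Fin n, B i.castSucc = (b i : V)) ∧ B.repr (f (B (Fin.last n))) (Fin.last n) = μ := by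
  obtain ⟨y, hy⟩ : ∃ y, φ y ≠ 0 := by
    by_contra hcon
    push Not at hcon
    exact hφ0 (LinearMap.ext hcon)
  set B := Module.Basis.mkFinSnoc b y (by
    intro c x hx hc
    have h1 := congrArg φ hc
    rw [map_add, map_smul, LinearMap.mem_ker.mp hx, add_zero, map_zero, smul_eq_mul] at h1
    exact (mul_eq_zero.mp h1).resolve_right hy) (by
    intro z
    refine ⟨-(φ z / φ y), ?_⟩
    rw [LinearMap.mem_ker, map_add, map_smul, smul_eq_mul]
    field_simp
    ring) with hB
  have hBl : B (Fin.last n) = y := by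
    rw [hB, Module.Basis.coe_mkFinSnoc]
    simp
  have hBs : ∀ i : Fin n, B i.castSucc = (b i : V) := by
    intro i
    rw [hB, Module.Basis.coe_mkFinSnoc]
    simp
  -- the last coordinate
  have hlast : ∀ z, B.repr z (Fin.last n) * φ y = φ z := by
    intro z
    have h1 := congrArg φ (B.sum_repr z)
    rw [map_sum, Fin.sum_univ_castSucc] at h1
    rw [Finset.sum_eq_zero, zero_add, map_smul, hBl, smul_eq_mul] at h1
    · exact h1
    · intro i _
      rw [map_smul, hBs, LinearMap.mem_ker.mp (b i).2, smul_zero]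
  refine ⟨B, ?_, hBs, ?_⟩
  · intro i j hij
    obtain ⟨j', rfl⟩ : ∃ j' : Fin n, j = j'.castSucc := by
      have hj : (j : ℕ) < n := by
        have := i.2
        have h2 : (j : ℕ) < i := hij
        omega
      exact ⟨⟨j, hj⟩, rfl⟩
    rw [hBs]
    have h1 : f (b j' : V) = ∑ i' : Fin n, (b.repr (f.restrict htH (b j')) i') • B i'.castSucc := by
      have h2 := b.sum_repr (f.restrict htH (b j'))
      have h3 := congrArg (fun x : LinearMap.ker φ => (x : V)) h2
      simp only [Submodule.coe_sum, Submodule.coe_smul] at h3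
      have h4 : ((f.restrict htH (b j') : LinearMap.ker φ) : V) = f (b j' : V) := rfl
      rw [h4] at h3
      rw [← h3]
      apply Finset.sum_congr rfl
      intro i' _
      rw [hBs]
    rw [h1, map_sum, Finsupp.finsetSum_apply]
    apply Finset.sum_eq_zero
    intro i' _
    rw [map_smul, Finsupp.smul_apply, Module.Basis.repr_self, Finsupp.single_apply]
    by_cases h : i'.castSucc = i
    · rw [if_pos h, smul_eq_mul, mul_one]
      apply hb
      rw [← h] at hij
      exact Fin.castSucc_lt_castSucc_iff.mp hij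
    · rw [if_neg h, smul_zero]
  · have h1 := hlast (f (B (Fin.last n)))
    rw [hBl, hφ y] at h1
    rw [hBl]
    exact mul_right_cancel₀ hy h1

theorem finrank_ker (V : Type) [AddCommGroup V] [Module ℂ V] [FiniteDimensional ℂ V]
    (φ : V →ₗ[ℂ] ℂ) (hφ0 : φ ≠ 0) : Module.finrank ℂ (LinearMap.ker φ) + 1 = Module.finrank ℂ V := by
  have h1 := LinearMap.finrank_range_add_finrank_ker φ
  have h2 : LinearMap.range φ = ⊤ := LinearMap.range_eq_top.mpr
    (LinearMap.surjective_of_ne_zero hφ0)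
  rw [h2, finrank_top, Module.finrank_self] at h1
  omega

/-- a triangular basis with prescribed first vectors -/
theorem head (m : ℕ) (hm : 0 < m) : ∀ (k : ℕ) (V : Type) [AddCommGroup V] [Module ℂ V]
    [FiniteDimensional ℂ V] (f : V →ₗ[ℂ] V) (s : Fin m → V), LinearIndependent ℂ s →
    (∀ j, f (s j) ∈ Submodule.span ℂ (s '' {i | i ≤ j})) → Module.finrank ℂ V = m + k →
    ∃ B : Module.Basis (Fin (m + k)) ℂ V, (∀ i j, j < i → B.repr (f (B j)) i = 0) ∧
      ∀ i : Fin m, B (Fin.castAdd k i) = s i := by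
  intro k
  induction k with
  | zero =>
    intro V _ _ _ f s hs hf hV
    have : Nonempty (Fin m) := ⟨⟨0, hm⟩⟩
    let B := basisOfLinearIndependentOfCardEqFinrank hs (by rw [hV]; simp)
    have hB : ∀ i, B i = s i := fun i => by
      rw [coe_basisOfLinearIndependentOfCardEqFinrank]
    refine ⟨B, ?_, ?_⟩
    · intro i j hij
      have h1 := hf j
      have h2 : (s : Fin m → V) = B := by
        funext i; exact (hB i).symm
      rw [h2, Module.Basis.mem_span_image] at h1
      by_contra h3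
      have h4 := h1 (Finsupp.mem_support_iff.2 h3)
      exact absurd hij (not_lt.2 h4)
    · intro i
      exact hB i
  | succ k ih =>
    intro V _ _ _ f s hs hf hV
    set S := Submodule.span ℂ (Set.range s) with hS
    have hSd : Module.finrank ℂ S = m := by
      rw [hS, finrank_span_eq_card hs, Fintype.card_fin]
    have hST : S ≠ ⊤ := by
      intro h
      rw [h, finrank_top] at hSd
      omega
    have hSf : S ≤ S.comap f := by
      rw [hS, Submodule.span_le]
      rintro _ ⟨j, rfl⟩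
      show f (s j) ∈ Submodule.span ℂ (Set.range s)
      exact Submodule.span_mono (Set.image_subset_range _ _) (hf j)
    obtain ⟨φ, μ, hφ0, hφS, hφ⟩ := hyp V f S hSf hST
    have htH : ∀ x ∈ LinearMap.ker φ, f x ∈ LinearMap.ker φ := by
      intro x hx
      rw [LinearMap.mem_ker] at hx ⊢
      rw [hφ, hx, mul_zero]
    have hmem : ∀ j, s j ∈ LinearMap.ker φ := fun j =>
      LinearMap.mem_ker.2 (hφS _ (Submodule.subset_span ⟨j, rfl⟩))
    have hfin : Module.finrank ℂ (LinearMap.ker φ) = m + k := by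
      have := finrank_ker V φ hφ0
      omega
    let s' : Fin m → LinearMap.ker φ := fun j => ⟨s j, hmem j⟩
    have hs' : LinearIndependent ℂ s' := by
      apply LinearIndependent.of_comp (LinearMap.ker φ).subtype
      exact hs
    have hf' : ∀ j, f.restrict htH (s' j) ∈ Submodule.span ℂ (s' '' {i | i ≤ j}) := by
      intro j
      have h1 := hf j
      have h2 : s '' {i | i ≤ j} = (LinearMap.ker φ).subtype '' (s' '' {i | i ≤ j}) := by
        rw [Set.image_image]
        rfl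
      rw [h2, Submodule.span_image] at h1
      obtain ⟨z, hz, hz2⟩ := h1
      have h3 : z = f.restrict htH (s' j) := Subtype.ext hz2
      rw [← h3]
      exact hz
    obtain ⟨b, hb1, hb2⟩ := ih (LinearMap.ker φ) (f.restrict htH) s' hs' hf' hfin
    obtain ⟨B, hB1, hB2, _⟩ := snoc V f φ μ hφ0 hφ (m + k) htH b hb1
    refine ⟨B, hB1, fun i => ?_⟩
    have h4 : Fin.castAdd (k + 1) i = (Fin.castAdd k i).castSucc := rfl
    rw [h4, hB2, hb2]

/-- a triangular basis with prescribed first and last eigenvalues -/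
theorem two (V : Type) [AddCommGroup V] [Module ℂ V] [FiniteDimensional ℂ V] (f : V →ₗ[ℂ] V)
    (a : ℂ) (v : V) (hv : v ≠ 0) (hfv : f v = a • v) (φ : V →ₗ[ℂ] ℂ) (μ : ℂ) (hφ0 : φ ≠ 0)
    (hφ : ∀ y, φ (f y) = μ * φ y) (hφv : φ v = 0) (k : ℕ) (hV : Module.finrank ℂ V = 1 + k + 1) :
    ∃ B : Module.Basis (Fin (1 + k + 1)) ℂ V, (∀ i j, j < i → B.repr (f (B j)) i = 0) ∧
      B.repr (f (B ⟨0, by omega⟩)) ⟨0, by omega⟩ = a ∧
      B.repr (f (B (Fin.last (1 + k)))) (Fin.last (1 + k)) = μ := by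
  have htH : ∀ x ∈ LinearMap.ker φ, f x ∈ LinearMap.ker φ := by
    intro x hx
    rw [LinearMap.mem_ker] at hx ⊢
    rw [hφ, hx, mul_zero]
  have hfin : Module.finrank ℂ (LinearMap.ker φ) = 1 + k := by
    have := finrank_ker V φ hφ0
    omega
  let v' : LinearMap.ker φ := ⟨v, LinearMap.mem_ker.2 hφv⟩
  have hv' : v' ≠ 0 := fun h => hv (congrArg (fun x : LinearMap.ker φ => (x : V)) h)
  obtain ⟨b, hb1, hb2⟩ := head 1 Nat.one_pos k (LinearMap.ker φ) (f.restrict htH) (fun _ => v')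
    (LinearIndependent.of_subsingleton (i := 0) hv') (fun j => by
      have h1 : f.restrict htH v' = a • v' := Subtype.ext hfv
      show f.restrict htH v' ∈ _
      rw [h1]
      exact Submodule.smul_mem _ _ (Submodule.subset_span ⟨j, Set.mem_setOf_eq ▸ le_refl j, rfl⟩)) hfin
  obtain ⟨B, hB1, hB2, hB3⟩ := snoc V f φ μ hφ0 hφ (1 + k) htH b hb1
  refine ⟨B, hB1, ?_, hB3⟩
  have h0 : B ⟨0, by omega⟩ = v := by
    have h1 := hB2 (Fin.castAdd k 0)
    rw [hb2] at h1
    exact h1
  rw [h0, hfv, ← h0, map_smul, Module.Basis.repr_self]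
  simp

/-- if all admissible pairs have product one then all eigenvalues have square one -/
theorem sq_one (V : Type) [AddCommGroup V] [Module ℂ V] [FiniteDimensional ℂ V] (f : V →ₗ[ℂ] V)
    (hV : 3 ≤ Module.finrank ℂ V)
    (H : ∀ (a μ : ℂ) (v : V) (φ : V →ₗ[ℂ] ℂ), v ≠ 0 → f v = a • v → φ ≠ 0 →
      (∀ y, φ (f y) = μ * φ y) → φ v = 0 → a * μ = 1)
    (a : ℂ) (v : V) (hv : v ≠ 0) (hfv : f v = a • v) : a * a = 1 := by
  set S := Submodule.span ℂ {v} with hS
  have hSf : S ≤ S.comap f := by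
    rw [hS, Submodule.span_le]
    rintro _ rfl
    show f _ ∈ Submodule.span ℂ _
    rw [hfv]
    exact Submodule.smul_mem _ _ (Submodule.mem_span_singleton_self _)
  have hS1 : Module.finrank ℂ S = 1 := finrank_span_singleton hv
  have hQ := Submodule.finrank_quotient_add_finrank S
  set g : (V ⧸ S) →ₗ[ℂ] (V ⧸ S) := S.mapQ S f hSf with hg
  have hgm : ∀ x, g (S.mkQ x) = S.mkQ (f x) := fun x => rfl
  have hmv : S.mkQ v = 0 := by
    rw [Submodule.mkQ_apply, Submodule.Quotient.mk_eq_zero]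
    exact Submodule.mem_span_singleton_self _
  have : Nontrivial (V ⧸ S) := Module.nontrivial_of_finrank_pos (R := ℂ) (by omega)
  obtain ⟨μ, x0, hx0, h0⟩ := ex_eig (V ⧸ S) g
  obtain ⟨φ, hφ0, hφ⟩ := dual_eig (V ⧸ S) g μ x0 hx0 h0
  -- pulling back
  have hpull : ∀ (ψ : (V ⧸ S) →ₗ[ℂ] ℂ) (c : ℂ), ψ ≠ 0 → (∀ y, ψ (g y) = c * ψ y) →
      ψ ∘ₗ S.mkQ ≠ 0 ∧ (∀ y, (ψ ∘ₗ S.mkQ) (f y) = c * (ψ ∘ₗ S.mkQ) y) ∧ (ψ ∘ₗ S.mkQ) v = 0 := by
    intro ψ c hψ h
    refine ⟨?_, ?_, ?_⟩
    · intro h0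
      apply hψ
      ext y
      have := LinearMap.congr_fun h0 y
      simpa using this
    · intro y
      rw [LinearMap.comp_apply, LinearMap.comp_apply, ← hgm, h]
    · rw [LinearMap.comp_apply, hmv, map_zero]
  obtain ⟨p1, p2, p3⟩ := hpull φ μ hφ0 hφ
  have haμ : a * μ = 1 := H a μ v (φ ∘ₗ S.mkQ) hv hfv p1 p2 p3
  -- the hyperplane in the quotient
  have hN := finrank_ker (V ⧸ S) φ hφ0
  have hNt : Nontrivial (LinearMap.ker φ) :=
    Module.nontrivial_of_finrank_pos (R := ℂ) (by omega)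
  have htH : ∀ x ∈ LinearMap.ker φ, g x ∈ LinearMap.ker φ := by
    intro x hx
    rw [LinearMap.mem_ker] at hx ⊢
    rw [hφ, hx, mul_zero]
  obtain ⟨ν, ⟨xq, hxk⟩, hx, hgx⟩ := ex_eig (LinearMap.ker φ) (g.restrict htH)
  have hxq0 : xq ≠ 0 := fun h => hx (Subtype.ext h)
  have hgx' : g xq = ν • xq := congrArg (fun x : LinearMap.ker φ => (x : V ⧸ S)) hgx
  obtain ⟨x, rfl⟩ := S.mkQ_surjective xq
  have hφx : φ (S.mkQ x) = 0 := LinearMap.mem_ker.1 hxk
  have hνa : ν = a := by
    by_contra hne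
    have h1 : f x - ν • x ∈ S := by
      rw [← Submodule.Quotient.mk_eq_zero, ← Submodule.mkQ_apply, map_sub, map_smul, ← hgm, hgx',
        sub_self]
    obtain ⟨c, hc⟩ := Submodule.mem_span_singleton.1 h1
    have hd : ν - a ≠ 0 := sub_ne_zero.2 hne
    -- the corrected vector
    set c' : ℂ := c / (ν - a) with hc'
    have h2 : f (x + c' • v) = ν • (x + c' • v) := by
      have h3 : f x = ν • x + c • v := by rw [hc]; abel
      rw [map_add, map_smul, hfv, h3, smul_add, smul_smul, smul_smul, add_assoc, ← add_smul]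
      congr 2
      rw [hc']
      field_simp
      ring
    have h3 : x + c' • v ≠ 0 := by
      intro h
      apply hxq0
      have h4 : S.mkQ (x + c' • v) = S.mkQ x := by
        rw [map_add, map_smul, hmv, smul_zero, add_zero]
      rw [← h4, h, map_zero]
    have h4 : (φ ∘ₗ S.mkQ) (x + c' • v) = 0 := by
      rw [LinearMap.comp_apply, map_add, map_smul, hmv, smul_zero, add_zero, hφx]
    have h5 : ν * μ = 1 := H ν μ (x + c' • v) (φ ∘ₗ S.mkQ) h3 h2 p1 p2 h4
    have hμ : μ ≠ 0 := right_ne_zero_of_mul_eq_one haμ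
    exact hne (mul_right_cancel₀ hμ (h5.trans haμ.symm))
  rw [hνa] at hgx'
  obtain ⟨ψ, hψ0, hψ⟩ := dual_eig (V ⧸ S) g a (S.mkQ x) hxq0 hgx'
  obtain ⟨q1, q2, q3⟩ := hpull ψ a hψ0 hψ
  exact H a a v (ψ ∘ₗ S.mkQ) hv hfv q1 q2 q3

/-- then there is only one eigenvalue -/
theorem uniq (V : Type) [AddCommGroup V] [Module ℂ V] [FiniteDimensional ℂ V] (f : V →ₗ[ℂ] V)
    (hV : 3 ≤ Module.finrank ℂ V)
    (H : ∀ (a μ : ℂ) (v : V) (φ : V →ₗ[ℂ] ℂ), v ≠ 0 → f v = a • v → φ ≠ 0 →
      (∀ y, φ (f y) = μ * φ y) → φ v = 0 → a * μ = 1)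
    (a c : ℂ) (v w : V) (hv : v ≠ 0) (hfv : f v = a • v) (hw : w ≠ 0) (hfw : f w = c • w) :
    c = a := by
  by_contra hne
  have h1 := sq_one V f hV H a v hv hfv
  obtain ⟨φ, hφ0, hφ⟩ := dual_eig V f c w hw hfw
  have h2 : φ v = 0 := by
    have h3 := hφ v
    rw [hfv, map_smul, smul_eq_mul] at h3
    have h4 : (a - c) * φ v = 0 := by rw [sub_mul, h3, sub_self]
    exact (mul_eq_zero.1 h4).resolve_left (sub_ne_zero.2 (Ne.symm hne))
  have h3 := H a c v φ hv hfv hφ0 hφ h2
  have ha : a ≠ 0 := left_ne_zero_of_mul_eq_one h1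
  exact hne (mul_left_cancel₀ ha (h3.trans h1.symm))

end lin

/-- matrix form -/
theorem mat (n : ℕ) (A : Mat n) (hA : A.det ≠ 0) (B : Module.Basis (Fin n) ℂ (Fin n → ℂ))
    (hB : ∀ i j, j < i → B.repr (Matrix.toLin' A (B j)) i = 0) :
    ∃ P P' U : Mat n, P * P' = 1 ∧ P' * P = 1 ∧ P' * A * P = U ∧ Upp U ∧
      ∀ i j, U i j = B.repr (Matrix.toLin' A (B j)) i := by
  let e := Pi.basisFun ℂ (Fin n)
  have h1 : e.toMatrix B * B.toMatrix e = 1 := Module.Basis.toMatrix_mul_toMatrix_flip e B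
  have h2 : B.toMatrix e * e.toMatrix B = 1 := Module.Basis.toMatrix_mul_toMatrix_flip B e
  have h3 : B.toMatrix e * A * e.toMatrix B = LinearMap.toMatrix B B (Matrix.toLin' A) := by
    have h4 := basis_toMatrix_mul_linearMap_toMatrix_mul_basis_toMatrix B e B e (Matrix.toLin' A)
    have h5 : LinearMap.toMatrix e e (Matrix.toLin' A) = A := by
      rw [LinearMap.toMatrix_eq_toMatrix', LinearMap.toMatrix'_toLin']
    rw [h5] at h4
    exact h4
  have h4 : ∀ i j, (LinearMap.toMatrix B B (Matrix.toLin' A)) i j =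
      B.repr (Matrix.toLin' A (B j)) i := fun i j => LinearMap.toMatrix_apply B B _ i j
  have hup : ∀ i j : Fin n, j < i → (LinearMap.toMatrix B B (Matrix.toLin' A)) i j = 0 :=
    fun i j h => by rw [h4, hB i j h]
  refine ⟨e.toMatrix B, B.toMatrix e, _, h1, h2, h3, ⟨hup, ?_⟩, h4⟩
  have h5 : (LinearMap.toMatrix B B (Matrix.toLin' A)).det ≠ 0 := by
    rw [← h3, Matrix.det_mul, Matrix.det_mul]
    have h6 : (B.toMatrix e).det * (e.toMatrix B).det = 1 := by
      rw [← Matrix.det_mul, h2, Matrix.det_one]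
    exact mul_ne_zero (mul_ne_zero (left_ne_zero_of_mul_eq_one h6) hA)
      (right_ne_zero_of_mul_eq_one h6)
  rw [Matrix.det_of_upperTriangular (fun i j h => hup i j h)] at h5
  exact fun i => Finset.prod_ne_zero_iff.1 h5 i (Finset.mem_univ _)

theorem s_TRI : S_TRI := by
  intro n hn A hdet
  have hA : A.det ≠ 0 := by
    rcases hdet with h | h
    · rw [h]; exact one_ne_zero
    · rw [h]; exact neg_ne_zero.2 one_ne_zero
  have hV : Module.finrank ℂ (Fin n → ℂ) = n := by simp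
  by_cases H : ∀ (a μ : ℂ) (v : Fin n → ℂ) (φ : (Fin n → ℂ) →ₗ[ℂ] ℂ), v ≠ 0 →
      Matrix.toLin' A v = a • v → φ ≠ 0 → (∀ y, φ (Matrix.toLin' A y) = μ * φ y) → φ v = 0 →
      a * μ = 1
  · right
    have hN : Nontrivial (Fin n → ℂ) := Module.nontrivial_of_finrank_pos (R := ℂ) (by omega)
    obtain ⟨l, v, hv, hfv⟩ := ex_eig (Fin n → ℂ) (Matrix.toLin' A)
    have hll := sq_one _ _ (by omega) H l v hv hfv
    have huq := fun (c : ℂ) (w : Fin n → ℂ) (hw : w ≠ 0) (hfw : Matrix.toLin' A w = c • w) =>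
      uniq _ _ (by omega) H l c v w hv hfv hw hfw
    by_cases hs : A = l • (1 : Mat n)
    · exact Or.inr ⟨l, hll, hs⟩
    left
    set g : (Fin n → ℂ) →ₗ[ℂ] (Fin n → ℂ) := Matrix.toLin' A - l • LinearMap.id with hg
    have hgx : ∀ x, g x = Matrix.toLin' A x - l • x := fun x => by rw [hg]; simp
    have hg0 : g ≠ 0 := by
      intro h0
      apply hs
      have h1 : Matrix.toLin' A = l • LinearMap.id := sub_eq_zero.1 h0
      have h2 : Matrix.toLin' A = Matrix.toLin' (l • (1 : Mat n)) := by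
        rw [h1, map_smul, Matrix.toLin'_one]
      exact Matrix.toLin'.injective h2
    have hR : Nontrivial (LinearMap.range g) := by
      rw [Submodule.nontrivial_iff_ne_bot]
      intro h
      exact hg0 (LinearMap.range_eq_bot.1 h)
    have hRf : ∀ x ∈ LinearMap.range g, Matrix.toLin' A x ∈ LinearMap.range g := by
      intro x hx
      have h1 : Matrix.toLin' A x = g x + l • x := by rw [hgx]; abel
      rw [h1]
      exact Submodule.add_mem _ (LinearMap.mem_range_self g x) (Submodule.smul_mem _ _ hx)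
    obtain ⟨l', ⟨y, hyR⟩, hy0, hy⟩ := ex_eig (LinearMap.range g)
      ((Matrix.toLin' A).restrict hRf)
    have hy0' : y ≠ 0 := fun h => hy0 (Subtype.ext h)
    have hy' : Matrix.toLin' A y = l' • y :=
      congrArg (fun x : LinearMap.range g => (x : Fin n → ℂ)) hy
    obtain rfl := huq l' y hy0' hy'
    obtain ⟨u, rfl⟩ := hyR
    have hggu : g (g u) = 0 := by rw [hgx, hy', sub_self]
    have hfu : Matrix.toLin' A u = g u + l' • u := by rw [hgx]; abel
    obtain ⟨k, rfl⟩ : ∃ k, n = 2 + k := ⟨n - 2, by omega⟩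
    have hli : LinearIndependent ℂ ![g u, u] := by
      rw [LinearIndependent.pair_iff]
      intro s t hst
      have h1 := congrArg g hst
      rw [map_add, map_smul, map_smul, hggu, smul_zero, zero_add, map_zero, smul_eq_zero] at h1
      have ht : t = 0 := h1.resolve_right hy0'
      rw [ht, zero_smul, add_zero, smul_eq_zero] at hst
      exact ⟨hst.resolve_right hy0', ht⟩
    obtain ⟨B, hB1, hB2⟩ := head 2 Nat.two_pos k (Fin (2 + k) → ℂ) (Matrix.toLin' A) ![g u, u] hli
      (by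
        intro j
        fin_cases j
        · show Matrix.toLin' A (g u) ∈ _
          rw [hy']
          exact Submodule.smul_mem _ _ (Submodule.subset_span ⟨0, Fin.zero_le _, rfl⟩)
        · show Matrix.toLin' A u ∈ _
          rw [hfu]
          have hm1 : (1 : Fin 2) ∈ {i : Fin 2 | i ≤ 1} := Set.mem_setOf_eq ▸ le_refl (1 : Fin 2)
          exact Submodule.add_mem _ (Submodule.subset_span ⟨0, Fin.zero_le _, rfl⟩)
            (Submodule.smul_mem _ _ (Submodule.subset_span ⟨1, hm1, rfl⟩))) hV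
    obtain ⟨P, P', U, e1, e2, e3, e4, e5⟩ := mat _ A hA B hB1
    refine ⟨P, P', U, l', e1, e2, e3, e4, hll, ?_, ?_⟩
    · -- diagonal entries are eigenvalues
      intro i
      have h1 : (U - (U i i) • (1 : Mat (2 + k))).det = 0 := by
        rw [Matrix.det_of_upperTriangular]
        · apply Finset.prod_eq_zero (Finset.mem_univ i)
          simp
        · intro p q hpq
          have hpq' : q < p := hpq
          rw [Matrix.sub_apply, e4.1 p q hpq', Matrix.smul_apply, Matrix.one_apply_ne hpq'.ne',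
            smul_zero, sub_zero]
      have h2 : (A - (U i i) • (1 : Mat (2 + k))).det = 0 := by
        have h3 : P' * (A - (U i i) • (1 : Mat (2 + k))) * P =
            U - (U i i) • (1 : Mat (2 + k)) := by
          rw [Matrix.mul_sub, Matrix.sub_mul, e3, Matrix.mul_smul, Matrix.mul_one, Matrix.smul_mul,
            e2]
        have h4 := congrArg Matrix.det h3
        rw [h1, Matrix.det_mul, Matrix.det_mul] at h4
        have h6 : P'.det * P.det = 1 := by
          rw [← Matrix.det_mul, e2, Matrix.det_one]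
        have h7 := left_ne_zero_of_mul_eq_one h6
        have h8 := right_ne_zero_of_mul_eq_one h6
        exact (mul_eq_zero.1 ((mul_eq_zero.1 h4).resolve_right h8)).resolve_left h7
      obtain ⟨w, hw, hw2⟩ := Matrix.exists_mulVec_eq_zero_iff.2 h2
      apply huq (U i i) w hw
      rw [Matrix.sub_mulVec, Matrix.smul_mulVec, Matrix.one_mulVec, sub_eq_zero] at hw2
      rw [Matrix.toLin'_apply]
      exact hw2
    · rw [e5]
      have hb0 : B (⟨0, by omega⟩ : Fin (2 + k)) = g u := hB2 0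
      have hb1 : B (⟨1, by omega⟩ : Fin (2 + k)) = u := hB2 1
      rw [hb1, hfu, map_add, map_smul, ← hb0]
      have h7 : B.repr u = B.repr (B (⟨1, by omega⟩ : Fin (2 + k))) := by rw [hb1]
      rw [h7, Module.Basis.repr_self, Module.Basis.repr_self]
      simp
  · left
    push Not at H
    obtain ⟨a, μ, v, φ, hv, hfv, hφ0, hφ, hφv, hne⟩ := H
    obtain ⟨k, rfl⟩ : ∃ k, n = 1 + k + 1 := ⟨n - 2, by omega⟩
    obtain ⟨B, hB1, hB2, hB3⟩ := two _ (Matrix.toLin' A) a v hv hfv φ μ hφ0 hφ hφv k hV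
    obtain ⟨P, P', U, e1, e2, e3, e4, e5⟩ := mat _ A hA B hB1
    refine ⟨P, P', U, e1, e2, e3, e4, ?_⟩
    rw [e5, e5, hB2]
    have h1 : last (1 + k + 1) (by omega) = Fin.last (1 + k) := rfl
    rw [h1, hB3]
    exact hne

end Pool.Agent.L7h77.F5
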